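import Pool.Agent.Lib.MQ.SpecA

/-! MP_00e23e_nt, Lib/MQ, module Afi (copy of Lib/MN/Afi.lean): from the bilinear theorem to CoreStmt (Vaughan's identity). -/

namespace Pool.Agent.Lib.MQ

open Finset Pool.Agent.Lib.EH3 Pool.Agent.Lib.TB Pool.Agent.Results.MP_00e23e_nt Pool.Agent.Lib.MI

private lemma Afi_dl (a : ℤ) (q n : ℕ) : ‖dl a q n‖ ≤ 1 := by
  rw [dl_nonneg_norm]
  split_ifs <;> norm_num

private lemma Afi_Ek (a : ℤ) (t q n : ℕ) : ‖Ek a t q n‖ ≤ 2 := by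
  unfold Ek
  have h1 : ‖(if n.Coprime (q / t) then (1 / ((q / t).totient : ℂ)) * dl a t n else 0 : ℂ)‖ ≤ 1 := by
    split_ifs with h
    · rw [norm_mul, norm_div, norm_one, Complex.norm_natCast]
      have h2 : (1 : ℝ) / ((q / t).totient : ℝ) ≤ 1 := by
        rcases Nat.eq_zero_or_pos (q / t).totient with h0 | h0
        · rw [h0]; norm_num
        · have : (1 : ℝ) ≤ ((q / t).totient : ℝ) := by exact_mod_cast h0
          rw [div_le_one (by linarith)]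
          exact this
      calc (1 : ℝ) / ((q / t).totient : ℝ) * ‖dl a t n‖ ≤ 1 * 1 :=
            mul_le_mul h2 (Afi_dl a t n) (norm_nonneg _) zero_le_one
        _ = 1 := one_mul 1
    · simp
  calc ‖dl a q n - (if n.Coprime (q / t) then (1 / ((q / t).totient : ℂ)) * dl a t n else 0 : ℂ)‖
      ≤ ‖dl a q n‖ + ‖(if n.Coprime (q / t) then (1 / ((q / t).totient : ℂ)) * dl a t n else 0 : ℂ)‖ :=
        norm_sub_le _ _
    _ ≤ 1 + 1 := add_le_add (Afi_dl a q n) h1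
    _ = 2 := by norm_num

private lemma Afi_mu (r : ℕ) : ‖((ArithmeticFunction.moebius r : ℝ) : ℂ)‖ ≤ 1 := by
  rw [Complex.norm_real, Real.norm_eq_abs]
  have h := ArithmeticFunction.abs_moebius_le_one (n := r)
  exact_mod_cast h

/-- the decomposition for one modulus -/
private lemma Afi_one (h1 : AvaStmt) (h2 : CO.VgbStmt) (h3 : AtyStmt) {x T W : ℝ} (hT : Tau x T) {z Y q t : ℕ}
    {a : ℤ} (hz : 1 ≤ z) (hzx : ((z ^ 2 : ℕ) : ℝ) ≤ x) (hY : (Y : ℝ) ≤ x) (hq : Squarefree q) (htq : t ∣ q)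
    (ha : Int.gcd a q = 1) (hqx : (q : ℝ) ≤ x) (hW : ∀ m n : ℕ, m * n ≤ Y → z < n → (m : ℝ) ≤ W) :
    ‖∑ n ∈ Icc 1 Y, ((ArithmeticFunction.vonMangoldt n : ℝ) : ℂ) * Ek a t q n‖ ≤
      11 * T ^ 2 * z +
      T * ‖∑ m ∈ Icc 1 Y, ∑ n ∈ Icc 1 (Y / m),
        (if z < m ∧ m ≤ z ^ 2 then ((CO.vg z m : ℝ) : ℂ) / (T : ℂ) else 0) * (1 : ℂ) * Ek a t q (m * n)‖ +
      T ^ 2 * ‖∑ m ∈ Icc 1 Y, ∑ n ∈ Icc 1 (Y / m),
        (if (m : ℝ) ≤ W then ((CO.vh z m : ℝ) : ℂ) / (T : ℂ) else 0) *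
          (if n ≤ Y then ((CO.vl z n : ℝ) : ℂ) / (T : ℂ) else 0) * Ek a t q (m * n)‖ := by
  obtain ⟨hT1, hT2, hT3⟩ := hT
  have hT0 : (0 : ℝ) < T := by linarith
  have hTC : (T : ℂ) ≠ 0 := by exact_mod_cast hT0.ne'
  have hq1 : 1 ≤ q := Nat.pos_of_ne_zero hq.ne_zero
  have hτq : (q.divisors.card : ℝ) ≤ T := hT3 q hq1 hqx
  have hlog : ∀ n : ℕ, 1 ≤ n → (n : ℝ) ≤ x → Real.log n ≤ T := by
    intro n hn hnx
    have : Real.log n ≤ Real.log x := Real.log_le_log (by exact_mod_cast hn) hnx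
    linarith
  have hzz : z ≤ z ^ 2 := by nlinarith
  have hzx' : ((z : ℕ) : ℝ) ≤ x := le_trans (by exact_mod_cast hzz) hzx
  have hzR : (1 : ℝ) ≤ z := by exact_mod_cast hz
  rw [h1 z Y (fun n => Ek a t q n) hz]
  -- the four parts
  set S1 : ℂ := ∑ n ∈ (Icc 1 Y).filter (fun n => n ≤ z),
    ((ArithmeticFunction.vonMangoldt n : ℝ) : ℂ) * Ek a t q n with hS1
  set S2 : ℂ := ∑ b ∈ Icc 1 z, ((ArithmeticFunction.moebius b : ℝ) : ℂ) *
    ∑ c ∈ Icc 1 (Y / b), ((Real.log c : ℝ) : ℂ) * Ek a t q (b * c) with hS2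
  set S3 : ℂ := ∑ b ∈ Icc 1 (z ^ 2), ((CO.vg z b : ℝ) : ℂ) * ∑ c ∈ Icc 1 (Y / b), Ek a t q (b * c) with hS3
  set S4 : ℂ := ∑ m ∈ Icc 1 Y, ∑ n ∈ Icc 1 (Y / m),
    ((CO.vh z m : ℝ) : ℂ) * ((CO.vl z n : ℝ) : ℂ) * Ek a t q (m * n) with hS4
  set B1 : ℂ := ∑ m ∈ Icc 1 Y, ∑ n ∈ Icc 1 (Y / m),
        (if z < m ∧ m ≤ z ^ 2 then ((CO.vg z m : ℝ) : ℂ) / (T : ℂ) else 0) * (1 : ℂ) * Ek a t q (m * n) with hB1
  set B2 : ℂ := ∑ m ∈ Icc 1 Y, ∑ n ∈ Icc 1 (Y / m),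
        (if (m : ℝ) ≤ W then ((CO.vh z m : ℝ) : ℂ) / (T : ℂ) else 0) *
          (if n ≤ Y then ((CO.vl z n : ℝ) : ℂ) / (T : ℂ) else 0) * Ek a t q (m * n) with hB2
  have e1 : ‖S1‖ ≤ 2 * T * z := by
    have hc : (((Icc 1 Y).filter (fun n => n ≤ z)).card : ℝ) ≤ z := by
      have : (Icc 1 Y).filter (fun n => n ≤ z) ⊆ Icc 1 z := by
        intro n hn
        rw [mem_filter, mem_Icc] at hn
        exact mem_Icc.2 ⟨hn.1.1, hn.2⟩
      have h := card_le_card this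
      rw [Nat.card_Icc] at h
      exact_mod_cast (by omega : ((Icc 1 Y).filter (fun n => n ≤ z)).card ≤ z)
    calc ‖S1‖ ≤ ∑ n ∈ (Icc 1 Y).filter (fun n => n ≤ z),
          ‖((ArithmeticFunction.vonMangoldt n : ℝ) : ℂ) * Ek a t q n‖ := norm_sum_le _ _
      _ ≤ ∑ n ∈ (Icc 1 Y).filter (fun n => n ≤ z), T * 2 := by
          refine sum_le_sum fun n hn => ?_
          rw [mem_filter, mem_Icc] at hn
          rw [norm_mul, Complex.norm_real, Real.norm_eq_abs,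
            abs_of_nonneg ArithmeticFunction.vonMangoldt_nonneg]
          refine mul_le_mul ?_ (Afi_Ek a t q n) (norm_nonneg _) hT0.le
          refine ArithmeticFunction.vonMangoldt_le_log.trans (hlog n hn.1.1 ?_)
          exact le_trans (by exact_mod_cast hn.2) hzx'
      _ = (((Icc 1 Y).filter (fun n => n ≤ z)).card : ℝ) * (T * 2) := by
          rw [sum_const, nsmul_eq_mul]
      _ ≤ z * (T * 2) := mul_le_mul_of_nonneg_right hc (by positivity)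
      _ = 2 * T * z := by ring
  have e2 : ‖S2‖ ≤ 6 * T ^ 2 * z := by
    calc ‖S2‖ ≤ ∑ b ∈ Icc 1 z, ‖((ArithmeticFunction.moebius b : ℝ) : ℂ) *
          ∑ c ∈ Icc 1 (Y / b), ((Real.log c : ℝ) : ℂ) * Ek a t q (b * c)‖ := norm_sum_le _ _
      _ ≤ ∑ b ∈ Icc 1 z, 6 * T ^ 2 := by
          refine sum_le_sum fun b hb => ?_
          rw [mem_Icc] at hb
          rw [norm_mul]
          have hh := (h3 q t b (Y / b) a hq htq hb.1 ha).2
          have hlg : Real.log ((Y / b : ℕ) : ℝ) ≤ T := by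
            rcases Nat.eq_zero_or_pos (Y / b) with h0 | h0
            · rw [h0]; simp; linarith
            · refine hlog _ h0 (le_trans ?_ hY)
              exact_mod_cast Nat.div_le_self Y b
          have hlg0 : 0 ≤ Real.log ((Y / b : ℕ) : ℝ) := Real.log_natCast_nonneg _
          calc ‖((ArithmeticFunction.moebius b : ℝ) : ℂ)‖ *
                ‖∑ c ∈ Icc 1 (Y / b), ((Real.log c : ℝ) : ℂ) * Ek a t q (b * c)‖
              ≤ 1 * (6 * (q.divisors.card : ℝ) * Real.log ((Y / b : ℕ) : ℝ)) :=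
                mul_le_mul (Afi_mu b) hh (norm_nonneg _) zero_le_one
            _ ≤ 1 * (6 * T * T) := by gcongr
            _ = 6 * T ^ 2 := by ring
      _ = 6 * T ^ 2 * z := by
          rw [sum_const, nsmul_eq_mul, Nat.card_Icc]
          simp
          ring
  have hvg : ∀ b : ℕ, 1 ≤ b → (b : ℝ) ≤ x → ‖((CO.vg z b : ℝ) : ℂ)‖ ≤ T := by
    intro b hb hbx
    rw [Complex.norm_real, Real.norm_eq_abs]
    exact (h2 z b hb).1.trans (hlog b hb hbx)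
  have e3 : S3 = ∑ b ∈ Icc 1 z, ((CO.vg z b : ℝ) : ℂ) * ∑ c ∈ Icc 1 (Y / b), Ek a t q (b * c) + (T : ℂ) * B1 := by
    have hsplit : Icc 1 (z ^ 2) = Icc 1 z ∪ Ioc z (z ^ 2) := by
      ext n
      simp only [mem_Icc, mem_union, mem_Ioc]
      omega
    have hdis : Disjoint (Icc 1 z) (Ioc z (z ^ 2)) := by
      rw [disjoint_left]
      intro n hn hn'
      rw [mem_Icc] at hn
      rw [mem_Ioc] at hn'
      omega
    rw [hS3, hsplit, sum_union hdis]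
    congr 1
    -- second part
    have hB1' : (T : ℂ) * B1 = ∑ m ∈ Icc 1 Y,
        (if z < m ∧ m ≤ z ^ 2 then ((CO.vg z m : ℝ) : ℂ) * ∑ n ∈ Icc 1 (Y / m), Ek a t q (m * n) else 0) := by
      rw [hB1, mul_sum]
      refine sum_congr rfl fun m _ => ?_
      split_ifs with hm
      · rw [mul_sum, mul_sum]
        refine sum_congr rfl fun n _ => ?_
        field_simp
      · simp
    rw [hB1', ← sum_filter]
    -- compare the index sets
    have hleft : ∑ b ∈ Ioc z (z ^ 2), ((CO.vg z b : ℝ) : ℂ) * ∑ c ∈ Icc 1 (Y / b), Ek a t q (b * c) =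
        ∑ b ∈ (Ioc z (z ^ 2)).filter (fun b => b ≤ Y),
          ((CO.vg z b : ℝ) : ℂ) * ∑ c ∈ Icc 1 (Y / b), Ek a t q (b * c) := by
      rw [sum_filter]
      refine sum_congr rfl fun b hb => ?_
      split_ifs with h
      · rfl
      · have : Y / b = 0 := Nat.div_eq_of_lt (by omega)
        rw [this]
        simp
    rw [hleft]
    refine sum_congr ?_ fun _ _ => rfl
    ext n
    simp only [mem_filter, mem_Icc, mem_Ioc]
    omega
  have e3b : ‖∑ b ∈ Icc 1 z, ((CO.vg z b : ℝ) : ℂ) * ∑ c ∈ Icc 1 (Y / b), Ek a t q (b * c)‖ ≤ 3 * T ^ 2 * z := by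
    calc ‖∑ b ∈ Icc 1 z, ((CO.vg z b : ℝ) : ℂ) * ∑ c ∈ Icc 1 (Y / b), Ek a t q (b * c)‖
        ≤ ∑ b ∈ Icc 1 z, ‖((CO.vg z b : ℝ) : ℂ) * ∑ c ∈ Icc 1 (Y / b), Ek a t q (b * c)‖ := norm_sum_le _ _
      _ ≤ ∑ b ∈ Icc 1 z, 3 * T ^ 2 := by
          refine sum_le_sum fun b hb => ?_
          rw [mem_Icc] at hb
          rw [norm_mul]
          have hh := (h3 q t b (Y / b) a hq htq hb.1 ha).1
          have hbx : (b : ℝ) ≤ x := le_trans (by exact_mod_cast hb.2) hzx'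
          calc ‖((CO.vg z b : ℝ) : ℂ)‖ * ‖∑ c ∈ Icc 1 (Y / b), Ek a t q (b * c)‖
              ≤ T * (3 * (q.divisors.card : ℝ)) :=
                mul_le_mul (hvg b hb.1 hbx) hh (norm_nonneg _) hT0.le
            _ ≤ T * (3 * T) := by gcongr
            _ = 3 * T ^ 2 := by ring
      _ = 3 * T ^ 2 * z := by
          rw [sum_const, nsmul_eq_mul, Nat.card_Icc]
          simp
          ring
  have e4 : S4 = (T : ℂ) ^ 2 * B2 := by
    rw [hS4, hB2, mul_sum]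
    refine sum_congr rfl fun m hm => ?_
    rw [mul_sum]
    refine sum_congr rfl fun n hn => ?_
    rw [mem_Icc] at hm hn
    have hmn : m * n ≤ Y := by
      calc m * n ≤ m * (Y / m) := Nat.mul_le_mul_left m hn.2
        _ ≤ Y := Nat.mul_div_le Y m
    have hnY : n ≤ Y := le_trans (Nat.le_mul_of_pos_left n hm.1) hmn
    rw [if_pos hnY]
    by_cases hzn : z < n
    · rw [if_pos (hW m n hmn hzn)]
      field_simp
    · have : CO.vl z n = 0 := by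
        unfold CO.vl
        rw [if_neg hzn]
      rw [this]
      simp
  have hfin : S1 + S2 - S3 + S4 = S1 + S2 -
      ∑ b ∈ Icc 1 z, ((CO.vg z b : ℝ) : ℂ) * ∑ c ∈ Icc 1 (Y / b), Ek a t q (b * c) - (T : ℂ) * B1 +
        (T : ℂ) ^ 2 * B2 := by
    rw [e3, e4]
    ring
  rw [hfin]
  have n1 : ‖(T : ℂ) * B1‖ = T * ‖B1‖ := by
    rw [norm_mul, Complex.norm_real, Real.norm_eq_abs, abs_of_pos hT0]
  have n2 : ‖(T : ℂ) ^ 2 * B2‖ = T ^ 2 * ‖B2‖ := by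
    rw [norm_mul, norm_pow, Complex.norm_real, Real.norm_eq_abs, abs_of_pos hT0]
  have hTT : T ≤ T ^ 2 := by nlinarith
  have hTz : 2 * T * z ≤ 2 * T ^ 2 * z := by gcongr
  set S5 : ℂ := ∑ b ∈ Icc 1 z, ((CO.vg z b : ℝ) : ℂ) * ∑ c ∈ Icc 1 (Y / b), Ek a t q (b * c) with hS5
  have t1 := norm_add_le (S1 + S2 - S5 - (T : ℂ) * B1) ((T : ℂ) ^ 2 * B2)
  have t2 := norm_sub_le (S1 + S2 - S5) ((T : ℂ) * B1)
  have t3 := norm_sub_le (S1 + S2) S5
  have t4 := norm_add_le S1 S2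
  rw [n2] at t1
  rw [n1] at t2
  nlinarith [t1, t2, t3, t4, e1, e2, e3b, hTz]

/-- Module Afi: the theorem for the von Mangoldt function. -/
theorem tAfi (h1 : AvaStmt) (h2 : CO.VgbStmt) (h3 : AtyStmt) (h4 : AbiStmt) (h5 : AtuStmt) : AfiStmt := by
  intro α τ κ κ1 σ ω ε hε0 hε1 hα hτ0 hτ1 hκ0 hκ1 hBl κ0 hk0 hk1
  obtain ⟨η1, C1, x1, hη1, hC1, hx1, hA⟩ := h4 α τ κ κ1 σ ω ε κ0 hα hε0 hε1 hBl hk0 hk1
  set η : ℝ := min (η1 / 2) (1 / 100) with hη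
  have hη0 : 0 < η := lt_min (by linarith) (by norm_num)
  have hηa : η ≤ η1 / 2 := min_le_left _ _
  have hηb : η ≤ 1 / 100 := min_le_right _ _
  obtain ⟨Ct, hCt, hT⟩ := h5 (η / 4) 1 (by linarith) one_pos
  refine ⟨η, 11 * Ct ^ 2 + Ct * C1 + Ct ^ 2 * C1, x1, hη0, ?_⟩
  intro x a Y F t v hx hY hF hNst
  have hx3 : 3 ≤ x := hx1.trans hx
  have hx0 : 0 < x := by linarith
  have hx1' : 1 ≤ x := by linarith
  have hTau : Tau x (Ct * x ^ (η / 4)) := by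
    have := hT x hx1'
    rwa [Real.rpow_one] at this
  set T : ℝ := Ct * x ^ (η / 4) with hTdef
  have hTau' := hTau
  obtain ⟨hT1, hT2, hT3⟩ := hTau'
  have hT0 : 0 < T := by linarith
  set z : ℕ := ⌊x ^ ((1 : ℝ) / 3)⌋₊ with hz
  have hx13 : 1 ≤ x ^ ((1 : ℝ) / 3) := Real.one_le_rpow hx1' (by norm_num)
  have hz1 : 1 ≤ z := by
    rw [hz]
    exact Nat.le_floor (by exact_mod_cast hx13)
  have hzle : (z : ℝ) ≤ x ^ ((1 : ℝ) / 3) := Nat.floor_le (by positivity)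
  have hzlt : ∀ n : ℕ, z < n → x ^ ((1 : ℝ) / 3) < n := by
    intro n hn
    exact Nat.lt_of_floor_lt hn
  have hz2 : ((z ^ 2 : ℕ) : ℝ) ≤ x ^ ((2 : ℝ) / 3) := by
    push_cast
    calc (z : ℝ) ^ 2 ≤ (x ^ ((1 : ℝ) / 3)) ^ 2 := by gcongr
      _ = x ^ ((2 : ℝ) / 3) := by
        rw [← Real.rpow_natCast, ← Real.rpow_mul hx0.le]
        norm_num
  have hx23 : x ^ ((2 : ℝ) / 3) ≤ x := by
    calc x ^ ((2 : ℝ) / 3) ≤ x ^ (1 : ℝ) := Real.rpow_le_rpow_of_exponent_le hx1' (by norm_num)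
      _ = x := Real.rpow_one x
  have hzx : ((z ^ 2 : ℕ) : ℝ) ≤ x := hz2.trans hx23
  have hW : ∀ m n : ℕ, m * n ≤ Y → z < n → (m : ℝ) ≤ x ^ ((2 : ℝ) / 3) := by
    intro m n hmn hn
    have h1n := hzlt n hn
    have h2n : (m : ℝ) * n ≤ x := le_trans (by exact_mod_cast hmn) hY
    have hprod : x ^ ((2 : ℝ) / 3) * x ^ ((1 : ℝ) / 3) = x := by
      rw [← Real.rpow_add hx0]
      norm_num
    by_contra hcon
    push Not at hcon
    have : x ^ ((2 : ℝ) / 3) * x ^ ((1 : ℝ) / 3) < (m : ℝ) * n := by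
      apply mul_lt_mul'' hcon h1n (by positivity) (by positivity)
    linarith
  have hq : ∀ q ∈ F, Squarefree q ∧ t q ∣ q ∧ (q : ℝ) ≤ x ^ ((3 : ℝ) / 5) ∧ Int.gcd (a q) q = 1 := by
    intro q hqF
    obtain ⟨hM, hFr⟩ := hF q hqF
    obtain ⟨m1, m2, m3, m4, m5⟩ := hM
    refine ⟨m1, m2, m3.trans (Real.rpow_le_rpow_of_exponent_le hx1' ?_), hFr⟩
    linarith
  have hx35 : x ^ ((3 : ℝ) / 5) ≤ x := by
    calc x ^ ((3 : ℝ) / 5) ≤ x ^ (1 : ℝ) := Real.rpow_le_rpow_of_exponent_le hx1' (by norm_num)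
      _ = x := Real.rpow_one x
  set f1 : ℕ → ℂ := fun m => if z < m ∧ m ≤ z ^ 2 then ((CO.vg z m : ℝ) : ℂ) / (T : ℂ) else 0 with hf1
  set f2 : ℕ → ℂ := fun m => if (m : ℝ) ≤ x ^ ((2 : ℝ) / 3) then ((CO.vh z m : ℝ) : ℂ) / (T : ℂ) else 0 with hf2
  set g2 : ℕ → ℂ := fun n => if n ≤ Y then ((CO.vl z n : ℝ) : ℂ) / (T : ℂ) else 0 with hg2
  have hlog : ∀ n : ℕ, 1 ≤ n → (n : ℝ) ≤ x → Real.log n ≤ T := by
    intro n hn hnx
    have : Real.log n ≤ Real.log x := Real.log_le_log (by exact_mod_cast hn) hnx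
    linarith
  have hf1n : ∀ m, ‖f1 m‖ ≤ 1 := by
    intro m
    simp only [hf1]
    split_ifs with h
    · rw [norm_div, Complex.norm_real, Complex.norm_real, Real.norm_eq_abs, Real.norm_eq_abs, abs_of_pos hT0,
        div_le_one hT0]
      have hm1 : 1 ≤ m := by omega
      refine (h2 z m hm1).1.trans (hlog m hm1 ?_)
      exact le_trans (by exact_mod_cast h.2) hzx
    · simp
  have hf2n : ∀ m, ‖f2 m‖ ≤ 1 := by
    intro m
    simp only [hf2]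
    split_ifs with h
    · rw [norm_div, Complex.norm_real, Complex.norm_real, Real.norm_eq_abs, Real.norm_eq_abs, abs_of_pos hT0,
        div_le_one hT0]
      rcases Nat.eq_zero_or_pos m with h0 | h0
      · rw [h0]
        unfold CO.vh
        simp
        exact hT0.le
      · exact ((h2 z m h0).2.2.1).trans (hT3 m h0 (h.trans hx23))
    · simp
  have hg2n : ∀ n, ‖g2 n‖ ≤ 1 := by
    intro n
    simp only [hg2]
    split_ifs with h
    · rw [norm_div, Complex.norm_real, Complex.norm_real, Real.norm_eq_abs, Real.norm_eq_abs, abs_of_pos hT0,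
        div_le_one hT0]
      rcases Nat.eq_zero_or_pos n with h0 | h0
      · rw [h0]
        unfold CO.vl
        simp
        exact hT0.le
      · obtain ⟨-, -, -, -, v1, v2⟩ := h2 z n h0
        rw [abs_of_nonneg v1]
        exact v2.trans (hlog n h0 (le_trans (by exact_mod_cast h) hY))
    · simp
  have hf1s : ∀ m, f1 m ≠ 0 → x ^ ((1 : ℝ) / 3) < m ∧ (m : ℝ) ≤ x ^ ((2 : ℝ) / 3) := by
    intro m hm
    simp only [hf1] at hm
    split_ifs at hm with h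
    · exact ⟨hzlt m h.1, le_trans (by exact_mod_cast h.2) hz2⟩
    · exact absurd rfl hm
  have hf2s : ∀ m, f2 m ≠ 0 → x ^ ((1 : ℝ) / 3) < m ∧ (m : ℝ) ≤ x ^ ((2 : ℝ) / 3) := by
    intro m hm
    simp only [hf2] at hm
    split_ifs at hm with h
    · refine ⟨?_, h⟩
      by_contra hcon
      apply hm
      have hmz : m ≤ z := by
        by_contra h3
        exact hcon (hzlt m (by omega))
      rcases Nat.eq_zero_or_pos m with h0 | h0
      · rw [h0]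
        unfold CO.vh
        simp
      · rw [(h2 z m h0).2.2.2.1 hmz]
        simp
    · exact absurd rfl hm
  have b1 := hA x a Y f1 (fun _ => 1) F t v hx hY hf1n (fun _ => by simp) hf1s hF hNst
  have b2 := hA x a Y f2 g2 F t v hx hY hf2n hg2n hf2s hF hNst
  have hcard : (F.card : ℝ) ≤ x ^ ((3 : ℝ) / 5) := by
    have hsub : F ⊆ Icc 1 ⌊x ^ ((3 : ℝ) / 5)⌋₊ := by
      intro q hqF
      obtain ⟨m1, m2, m3, m4⟩ := hq q hqF
      exact mem_Icc.2 ⟨Nat.pos_of_ne_zero m1.ne_zero, Nat.le_floor m3⟩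
    have h := card_le_card hsub
    rw [Nat.card_Icc] at h
    have h' : F.card ≤ ⌊x ^ ((3 : ℝ) / 5)⌋₊ := by omega
    calc (F.card : ℝ) ≤ (⌊x ^ ((3 : ℝ) / 5)⌋₊ : ℝ) := by exact_mod_cast h'
      _ ≤ x ^ ((3 : ℝ) / 5) := Nat.floor_le (by positivity)
  have hsum : ∑ q ∈ F, ‖∑ n ∈ Icc 1 Y, (ArithmeticFunction.vonMangoldt n : ℂ) * Ek (a q) (t q) q n‖ ≤
      (F.card : ℝ) * (11 * T ^ 2 * z) + T * (C1 * x ^ (1 - η1)) + T ^ 2 * (C1 * x ^ (1 - η1)) := by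
    calc ∑ q ∈ F, ‖∑ n ∈ Icc 1 Y, (ArithmeticFunction.vonMangoldt n : ℂ) * Ek (a q) (t q) q n‖
        ≤ ∑ q ∈ F, (11 * T ^ 2 * z +
          T * ‖∑ m ∈ Icc 1 Y, ∑ n ∈ Icc 1 (Y / m), f1 m * (1 : ℂ) * Ek (a q) (t q) q (m * n)‖ +
          T ^ 2 * ‖∑ m ∈ Icc 1 Y, ∑ n ∈ Icc 1 (Y / m), f2 m * g2 n * Ek (a q) (t q) q (m * n)‖) := by
          refine sum_le_sum fun q hqF => ?_
          obtain ⟨m1, m2, m3, m4⟩ := hq q hqF
          exact Afi_one h1 h2 h3 hTau hz1 hzx hY m1 m2 m4 (m3.trans hx35) hW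
      _ = (F.card : ℝ) * (11 * T ^ 2 * z) +
          T * ∑ q ∈ F, ‖∑ m ∈ Icc 1 Y, ∑ n ∈ Icc 1 (Y / m), f1 m * (1 : ℂ) * Ek (a q) (t q) q (m * n)‖ +
          T ^ 2 * ∑ q ∈ F, ‖∑ m ∈ Icc 1 Y, ∑ n ∈ Icc 1 (Y / m), f2 m * g2 n * Ek (a q) (t q) q (m * n)‖ := by
          rw [sum_add_distrib, sum_add_distrib, sum_const, nsmul_eq_mul, ← mul_sum, ← mul_sum]
      _ ≤ (F.card : ℝ) * (11 * T ^ 2 * z) + T * (C1 * x ^ (1 - η1)) + T ^ 2 * (C1 * x ^ (1 - η1)) := by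
          gcongr
  -- the numerical end
  have hTsq : T ^ 2 = Ct ^ 2 * x ^ (η / 2) := by
    rw [hTdef, mul_pow, ← Real.rpow_natCast (x ^ (η / 4)), ← Real.rpow_mul hx0.le]
    congr 2
    push_cast
    ring
  have hxη : x ^ (1 - η1) ≤ x ^ (1 - 2 * η) := Real.rpow_le_rpow_of_exponent_le hx1' (by linarith)
  have p1 : (F.card : ℝ) * (11 * T ^ 2 * z) ≤ 11 * Ct ^ 2 * x ^ (1 - η) := by
    calc (F.card : ℝ) * (11 * T ^ 2 * z) ≤ x ^ ((3 : ℝ) / 5) * (11 * T ^ 2 * x ^ ((1 : ℝ) / 3)) := by gcongr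
      _ = 11 * Ct ^ 2 * (x ^ ((3 : ℝ) / 5) * x ^ (η / 2) * x ^ ((1 : ℝ) / 3)) := by rw [hTsq]; ring
      _ = 11 * Ct ^ 2 * x ^ ((3 : ℝ) / 5 + η / 2 + (1 : ℝ) / 3) := by
          rw [← Real.rpow_add hx0, ← Real.rpow_add hx0]
      _ ≤ 11 * Ct ^ 2 * x ^ (1 - η) := by
          apply mul_le_mul_of_nonneg_left _ (by positivity)
          exact Real.rpow_le_rpow_of_exponent_le hx1' (by linarith)
  have p2 : T * (C1 * x ^ (1 - η1)) ≤ Ct * C1 * x ^ (1 - η) := by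
    calc T * (C1 * x ^ (1 - η1)) ≤ T * (C1 * x ^ (1 - 2 * η)) := by gcongr
      _ = Ct * C1 * (x ^ (η / 4) * x ^ (1 - 2 * η)) := by rw [hTdef]; ring
      _ = Ct * C1 * x ^ (η / 4 + (1 - 2 * η)) := by rw [← Real.rpow_add hx0]
      _ ≤ Ct * C1 * x ^ (1 - η) := by
          apply mul_le_mul_of_nonneg_left _ (by positivity)
          exact Real.rpow_le_rpow_of_exponent_le hx1' (by linarith)
  have p3 : T ^ 2 * (C1 * x ^ (1 - η1)) ≤ Ct ^ 2 * C1 * x ^ (1 - η) := by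
    calc T ^ 2 * (C1 * x ^ (1 - η1)) ≤ T ^ 2 * (C1 * x ^ (1 - 2 * η)) := by gcongr
      _ = Ct ^ 2 * C1 * (x ^ (η / 2) * x ^ (1 - 2 * η)) := by rw [hTsq]; ring
      _ = Ct ^ 2 * C1 * x ^ (η / 2 + (1 - 2 * η)) := by rw [← Real.rpow_add hx0]
      _ ≤ Ct ^ 2 * C1 * x ^ (1 - η) := by
          apply mul_le_mul_of_nonneg_left _ (by positivity)
          exact Real.rpow_le_rpow_of_exponent_le hx1' (by linarith)
  calc ∑ q ∈ F, ‖∑ n ∈ Icc 1 Y, (ArithmeticFunction.vonMangoldt n : ℂ) * Ek (a q) (t q) q n‖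
      ≤ (F.card : ℝ) * (11 * T ^ 2 * z) + T * (C1 * x ^ (1 - η1)) + T ^ 2 * (C1 * x ^ (1 - η1)) := hsum
    _ ≤ 11 * Ct ^ 2 * x ^ (1 - η) + Ct * C1 * x ^ (1 - η) + Ct ^ 2 * C1 * x ^ (1 - η) :=
        add_le_add (add_le_add p1 p2) p3
    _ = (11 * Ct ^ 2 + Ct * C1 + Ct ^ 2 * C1) * x ^ (1 - η) := by ring

end Pool.Agent.Lib.MQ
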