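import Pool.Agent.Lib.MN.AllM
import Pool.Agent.Lib.MQ.Bdr
import Pool.Agent.Lib.MQ.Bds
import Pool.Agent.Lib.MQ.Bfi
import Pool.Agent.Lib.MQ.Acb
import Pool.Agent.Lib.MQ.Abi
import Pool.Agent.Lib.MQ.Afi
import Pool.Agent.Lib.MQ.Fth
import Pool.Agent.Lib.MQ.Fpi
import Pool.Agent.Lib.MQ.Fps
import Pool.Agent.Lib.MQ.Fmi

/-! MP_00e23e_nt, directory Lib/MQ: THEOREM MI (version 8), without hypotheses. -/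

namespace Pool.Agent.Lib.MQ

open Pool.Agent.Lib.TB

/-- Chapter B. -/
theorem tBAll : BAllStmt :=
  tBfi (tBds (tBdr (ML.tBbo ML.tDAll (ML.tBt1 ML.tT1All ML.tBdh) MI.tBta)
    (ML.tBbt ML.tDAll (ML.tBt2 ML.tT2All ML.tBdh) MI.tBta))
    MK.tFsp MI.tBta) MI.tBid (MN.tBrm MI.tBph) (ML.tBlg MI.tLrgAll) MI.tLrgAll MI.tBta

/-- Chapter A. -/
theorem tAAll : AAllStmt :=
  tAfi MI.tAva CO.tVgb (MI.tAty MI.tAct) (tAbi MI.tAcl (MK.tAtr MK.tAnm) tAcb (MI.tAtu tTauk)) (MI.tAtu tTauk)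

/-- Chapter F. -/
theorem tFAll : FAllStmt :=
  tFmi (tFps (tFpi (tFth MI.tFtp MI.tFtn (MI.tAtu tTauk) MK.tFpw) MI.tFab (MI.tAtu tTauk)) MI.tFgr MI.tFtn)
    (MI.tFbv BV.aExt KF.tRse MI.tFtn)

/-- THEOREM MI, version 8. -/
theorem tMI : MIStmt := by
  intro δ τ κ κ1 σ ω hδ hτ hτ' hκ h1 h2 h3 h4
  obtain ⟨ε, hε0, hε1, hB⟩ := tBAll δ τ κ κ1 σ ω hδ hτ hτ' hκ h1 h2 h3 h4
  have hA : CoreStmt (1 / 2 + δ) τ κ κ1 σ ω :=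
    tAAll (1 / 2 + δ) τ κ κ1 σ ω ε hε0 hε1 (by linarith) hτ hτ' hκ (by linarith) hB
  exact tFAll (1 / 2 + δ) τ κ κ1 σ ω (by linarith) hτ hτ' hκ (by linarith) hA

end Pool.Agent.Lib.MQ
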