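import Pool.Agent.Lib.MQ.Stm

/-!
MP_00e23e_nt, directory Lib/MQ (THEOREM MI, version 8, architect helper34), chapter B: as in Lib/MN (SpecB); the primes of q/t
are > x^κ0 (Mt), no upper bound; the divisors of Type I come from Dn (in Dv).
RULES. Module X: file Pool/Agent/Lib/MQ/X.lean, first line `import Pool.Agent.Lib.MQ.SpecB`, then
`namespace Pool.Agent.Lib.MQ` and `open Finset Pool.Agent.Lib.EH3 Pool.Agent.Lib.TB Pool.Agent.Results.MP_00e23e_nt Pool.Agent.Lib.MI`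
(MQ.Nst, MQ.Dv, MQ.BlStmt, ... win over those of MI; write MI.X, MK.X, ML.X, MN.X for the others: ML.Pr, ML.BboStmt, ...), private
lemmas with names starting with X_, final theorem `theorem tX (h1 : AStmt) ... : XStmt`; the statements listed under Uses are
hypotheses, in this order. MODEL file: copy it and change it. Never use congr!. Below 60 s.
-/

namespace Pool.Agent.Lib.MQ

open Finset Pool.Agent.Lib.EH3 Pool.Agent.Lib.TB Pool.Agent.Results.MP_00e23e_nt Pool.Agent.Lib.MI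

/-- Module Bdr (theorem tBdr; all blocks). Uses: ML.BboStmt, ML.BbtStmt. MODEL: Lib/MN/Bdr.lean.
Proof. As there, ML.BboStmt and ML.BbtStmt with τ := 0 (Par δ 0 κ ε), Mt in place of Md. The divisor of s = q/r in Type I (N ≤ x^(1/2-sg)): Dn for s with W = x^(yy+4ε+κ) = x^(2δ+2κ+7ε) ≤ x^ω, W ≤ s (s > x^(sg+ε/2) as in the MODEL) gives v ∣ s, v ≤ W < v x^κ, so v > x^(yy+4ε). The divisor of r: Dn for r = t q * u q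
with W = x^(4yy+8ε+κ) = x^(8δ+5κ+20ε) ≤ x^ω, W ≤ r (r > x^(1/3-2ε-κ), 8δ+6κ+30ε ≤ 1/3 by Par δ 0 κ ε) gives r0 ∣ r, r0 ≤ W < r0 x^κ. No Bgr. -/
def BdrStmt : Prop := ∀ δ τ κ κ1 ω ε κ0 : ℝ, Par δ 0 κ ε → 2 * δ + κ + 6 * ε ≤ 2 * κ1 → 8 * δ + 5 * κ + 20 * ε ≤ ω →
  0 < κ0 → κ0 < κ → ∃ η C x0 : ℝ, 0 < η ∧
  ∀ (x : ℝ) (a : ℕ → ℤ) (M N : ℕ) (f g : ℕ → ℂ) (G : Finset ℕ) (t u : ℕ → ℕ), x0 ≤ x → N ≤ M →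
  x ^ ((1 : ℝ) / 3 - ε) ≤ N →
  x ^ (1 - ε) ≤ (M : ℝ) * N → (M : ℝ) * N ≤ x → (∀ m, ‖f m‖ ≤ 1) → (∀ n, ‖g n‖ ≤ 1) →
  (∀ q ∈ G, Mt (1 / 2 + δ) τ κ0 x (t q) q ∧ Int.gcd (a q) q = 1 ∧ x ^ (1 / 2 - ε / 2) < (q : ℝ) ∧
    Dv κ ω x (N * x ^ (-ε)) t u q) →
  (∀ q ∈ G, ∀ q' ∈ G, t q * u q = t q' * u q' → t q = t q' ∧ Cn κ1 x a t u q q') →
  ∑ q ∈ G, ‖∑ m ∈ Ioc M (2 * M), ∑ n ∈ Ioc N (2 * N),
      f m * g n * Dl (a q) (t q * u q) (q / (t q * u q)) (m * n)‖ ≤ C * x ^ (1 - η)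

/-- Module Bds (theorem tBds). Uses: BdrStmt, MK.FspStmt, MI.BtaStmt. MODEL: Lib/MN/Bds.lean. -/
def BdsStmt : Prop := ∀ δ τ κ κ1 ω ε κ0 : ℝ, Par δ 0 κ ε → 2 * δ + κ + 6 * ε ≤ 2 * κ1 → 8 * δ + 5 * κ + 20 * ε ≤ ω →
  0 < κ0 → κ0 < κ → ∃ η C x0 : ℝ, 0 < η ∧
  ∀ (x : ℝ) (a : ℕ → ℤ) (M N : ℕ) (f g : ℕ → ℂ) (F : Finset ℕ) (t u : ℕ → ℕ), x0 ≤ x → N ≤ M →
  x ^ ((1 : ℝ) / 3 - ε) ≤ N →
  x ^ (1 - ε) ≤ (M : ℝ) * N → (M : ℝ) * N ≤ x → (∀ m, ‖f m‖ ≤ 1) → (∀ n, ‖g n‖ ≤ 1) →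
  (∀ q ∈ F, Mt (1 / 2 + δ) τ κ0 x (t q) q ∧ Int.gcd (a q) q = 1 ∧ x ^ (1 / 2 - ε / 2) < (q : ℝ) ∧
    Dv κ ω x (N * x ^ (-ε)) t u q) →
  (∀ q ∈ F, ∀ q' ∈ F, t q = t q' → u q = u q' → Cn κ1 x a t u q q') →
  ∑ q ∈ F, ‖∑ m ∈ Ioc M (2 * M), ∑ n ∈ Ioc N (2 * N),
      f m * g n * Dl (a q) (t q * u q) (q / (t q * u q)) (m * n)‖ ≤ C * x ^ (1 - η)

/-- Module Bfi (theorem tBfi). STATEMENT BAllStmt (MQ/Stm.lean). Uses: BdsStmt, MI.BidStmt, MN.BrmStmt, ML.BlgStmt, MI.LrgStmt, MI.BtaStmt. MODEL: Lib/MN/Bfi.lean.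
Proof. As there with Par δ 0 κ ε (8δ + 6κ ≤ (86δ + 60κ)/10 < 1/10, so it holds for small ε); in addition ε ≤ (ω - 8δ - 5κ)/20. -/
def BfiStmt : Prop := BAllStmt

end Pool.Agent.Lib.MQ
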